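import Pool.Agent.TH374.Shadow.Core

set_option autoImplicit false
set_option linter.unusedSimpArgs false

namespace Pool.Agent.TH374.Shadow

open Set

/-- The six vertices of an affinely regular hexagon with centre `o`. -/
def hex {F : Type} [AddCommGroup F] (o A B : F) : Fin 6 → F :=
  ![o + A, o + B, o + (B - A), o - A, o - B, o + (A - B)]

section

variable {E F : Type} [AddCommGroup E] [Module ℝ E] [AddCommGroup F] [Module ℝ F]

lemma mem_seg (u v : E) (a b : ℝ) (ha : 0 ≤ a) (hb : 0 ≤ b) (hab : a + b = 1) :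
    a • u + b • v ∈ segment ℝ u v := ⟨a, b, ha, hb, hab, rfl⟩

lemma mem_oseg (u v : E) (a b : ℝ) (ha : 0 < a) (hb : 0 < b) (hab : a + b = 1) :
    a • u + b • v ∈ openSegment ℝ u v := ⟨a, b, ha, hb, hab, rfl⟩

/-- Heights version of the contradiction, `25` above `14`. -/
lemma contra_aux (π : E →ₗ[ℝ] F) (Z : E →ₗ[ℝ] ℝ)
    (hinj : ∀ x y, π x = π y → Z x = Z y → x = y) (f : Fin 6 → E) (o A B : F)
    (hf : ∀ i, π (f i) = hex o A B i) (hπf : Function.Injective fun i => π (f i))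
    (hext : ∀ v, f v ∈ extremePoints ℝ (convexHull ℝ (range f)))
    (h15 : IsExtreme ℝ (convexHull ℝ (range f)) (segment ℝ (f 1) (f 5)))
    (h24 : IsExtreme ℝ (convexHull ℝ (range f)) (segment ℝ (f 2) (f 4)))
    (h25 : IsExtreme ℝ (convexHull ℝ (range f)) (segment ℝ (f 2) (f 5)))
    (h04 : IsExtreme ℝ (convexHull ℝ (range f)) (segment ℝ (f 0) (f 4)))
    (h14 : IsExtreme ℝ (convexHull ℝ (range f)) (segment ℝ (f 1) (f 4)))
    (h13 : IsExtreme ℝ (convexHull ℝ (range f)) (segment ℝ (f 1) (f 3)))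
    (hpos : Z (f 1) + Z (f 4) < Z (f 2) + Z (f 5)) : False := by
  set P := convexHull ℝ (range f) with hPdef
  have hP : Convex ℝ P := convex_convexHull ℝ _
  have hmem : ∀ i, f i ∈ P := fun i => subset_convexHull ℝ _ ⟨i, rfl⟩
  have hnot : ∀ c u v : Fin 6, c ≠ u → c ≠ v → f c ∉ segment ℝ (f u) (f v) := by
    intro c u v hcu hcv hc
    have h1 := (mem_extremePoints_iff_forall_segment.1 (hext c)).2 _ (hmem u) _ (hmem v) hc
    rcases h1 with h1 | h1
    · exact hcu (hπf (by simp [h1])) 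
    · exact hcv (hπf (by simp [h1]))
  have hne : ∀ i j : Fin 6, i ≠ j → π (f i) ≠ π (f j) := fun i j hij h => hij (hπf h)
  have q0 : π (f 0) = o + A := by simpa [hex] using hf 0
  have q1 : π (f 1) = o + B := by simpa [hex] using hf 1
  have q2 : π (f 2) = o + (B - A) := by simpa [hex] using hf 2
  have q3 : π (f 3) = o - A := by simpa [hex] using hf 3
  have q4 : π (f 4) = o - B := by simpa [hex] using hf 4
  have q5 : π (f 5) = o + (A - B) := by simpa [hex] using hf 5
  have key := @sign_strict E F _ _ _ _ P hP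
  have hinj' : ∀ x y, π x = π y → (-Z) x = (-Z) y → x = y := by
    intro x y h1 h2
    exact hinj x y h1 (by simpa using h2)
  -- 25 above 04
  have s1 := key π Z hinj (f 2) (f 5)
    ((1/2 : ℝ) • f 2 + (1/2 : ℝ) • f 5) ((1/4 : ℝ) • f 2 + (3/4 : ℝ) • f 5)
    ((1/2 : ℝ) • f 1 + (1/2 : ℝ) • f 4) ((1/2 : ℝ) • f 0 + (1/2 : ℝ) • f 4) (f 0) (f 4)
    h25 (hne 2 5 (by decide)) (mem_seg _ _ _ _ (by norm_num) (by norm_num) (by norm_num))
    (mem_seg _ _ _ _ (by norm_num) (by norm_num) (by norm_num))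
    (hP (hmem 1) (hmem 4) (by norm_num) (by norm_num) (by norm_num))
    (hmem 0) (hmem 4) (mem_oseg _ _ _ _ (by norm_num) (by norm_num) (by norm_num))
    (hnot 0 2 5 (by decide) (by decide))
    (by simp only [map_add, map_smul, q0, q1, q2, q3, q4, q5]; module)
    (by simp only [map_add, map_smul, q0, q1, q2, q3, q4, q5]; module)
    (by simp only [map_add, map_smul, smul_eq_mul]; linarith)
  -- 25 above 13
  have s2 := key π Z hinj (f 2) (f 5)
    ((1/2 : ℝ) • f 2 + (1/2 : ℝ) • f 5) ((3/4 : ℝ) • f 2 + (1/4 : ℝ) • f 5)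
    ((1/2 : ℝ) • f 1 + (1/2 : ℝ) • f 4) ((1/2 : ℝ) • f 1 + (1/2 : ℝ) • f 3) (f 1) (f 3)
    h25 (hne 2 5 (by decide)) (mem_seg _ _ _ _ (by norm_num) (by norm_num) (by norm_num))
    (mem_seg _ _ _ _ (by norm_num) (by norm_num) (by norm_num))
    (hP (hmem 1) (hmem 4) (by norm_num) (by norm_num) (by norm_num))
    (hmem 1) (hmem 3) (mem_oseg _ _ _ _ (by norm_num) (by norm_num) (by norm_num))
    (hnot 1 2 5 (by decide) (by decide))
    (by simp only [map_add, map_smul, q0, q1, q2, q3, q4, q5]; module)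
    (by simp only [map_add, map_smul, q0, q1, q2, q3, q4, q5]; module)
    (by simp only [map_add, map_smul, smul_eq_mul]; linarith)
  simp only [map_add, map_smul, smul_eq_mul] at s1 s2
  -- 04 below 15
  have s3 := key π (-Z) hinj' (f 0) (f 4)
    ((1/2 : ℝ) • f 0 + (1/2 : ℝ) • f 4) ((2/3 : ℝ) • f 0 + (1/3 : ℝ) • f 4)
    ((1/4 : ℝ) • f 2 + (3/4 : ℝ) • f 5) ((1/3 : ℝ) • f 1 + (2/3 : ℝ) • f 5) (f 1) (f 5)
    h04 (hne 0 4 (by decide)) (mem_seg _ _ _ _ (by norm_num) (by norm_num) (by norm_num))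
    (mem_seg _ _ _ _ (by norm_num) (by norm_num) (by norm_num))
    (hP (hmem 2) (hmem 5) (by norm_num) (by norm_num) (by norm_num))
    (hmem 1) (hmem 5) (mem_oseg _ _ _ _ (by norm_num) (by norm_num) (by norm_num))
    (hnot 1 0 4 (by decide) (by decide))
    (by simp only [map_add, map_smul, q0, q1, q2, q3, q4, q5]; module)
    (by simp only [map_add, map_smul, q0, q1, q2, q3, q4, q5]; module)
    (by simp only [map_add, map_smul, smul_eq_mul, LinearMap.neg_apply]; linarith)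
  -- 13 below 24
  have s4 := key π (-Z) hinj' (f 1) (f 3)
    ((1/2 : ℝ) • f 1 + (1/2 : ℝ) • f 3) ((1/3 : ℝ) • f 1 + (2/3 : ℝ) • f 3)
    ((3/4 : ℝ) • f 2 + (1/4 : ℝ) • f 5) ((2/3 : ℝ) • f 2 + (1/3 : ℝ) • f 4) (f 2) (f 4)
    h13 (hne 1 3 (by decide)) (mem_seg _ _ _ _ (by norm_num) (by norm_num) (by norm_num))
    (mem_seg _ _ _ _ (by norm_num) (by norm_num) (by norm_num))
    (hP (hmem 2) (hmem 5) (by norm_num) (by norm_num) (by norm_num))
    (hmem 2) (hmem 4) (mem_oseg _ _ _ _ (by norm_num) (by norm_num) (by norm_num))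
    (hnot 2 1 3 (by decide) (by decide))
    (by simp only [map_add, map_smul, q0, q1, q2, q3, q4, q5]; module)
    (by simp only [map_add, map_smul, q0, q1, q2, q3, q4, q5]; module)
    (by simp only [map_add, map_smul, smul_eq_mul, LinearMap.neg_apply]; linarith)
  simp only [map_add, map_smul, smul_eq_mul, LinearMap.neg_apply] at s3 s4
  -- 15 above 02
  have s5 := key π Z hinj (f 1) (f 5)
    ((1/3 : ℝ) • f 1 + (2/3 : ℝ) • f 5) ((2/3 : ℝ) • f 1 + (1/3 : ℝ) • f 5)
    ((2/3 : ℝ) • f 0 + (1/3 : ℝ) • f 4) ((2/3 : ℝ) • f 0 + (1/3 : ℝ) • f 2) (f 0) (f 2)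
    h15 (hne 1 5 (by decide)) (mem_seg _ _ _ _ (by norm_num) (by norm_num) (by norm_num))
    (mem_seg _ _ _ _ (by norm_num) (by norm_num) (by norm_num))
    (hP (hmem 0) (hmem 4) (by norm_num) (by norm_num) (by norm_num))
    (hmem 0) (hmem 2) (mem_oseg _ _ _ _ (by norm_num) (by norm_num) (by norm_num))
    (hnot 0 1 5 (by decide) (by decide))
    (by simp only [map_add, map_smul, q0, q1, q2, q3, q4, q5]; module)
    (by simp only [map_add, map_smul, q0, q1, q2, q3, q4, q5]; module)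
    (by simp only [map_add, map_smul, smul_eq_mul]; linarith)
  -- 24 above 35
  have s6 := key π Z hinj (f 2) (f 4)
    ((2/3 : ℝ) • f 2 + (1/3 : ℝ) • f 4) ((1/3 : ℝ) • f 2 + (2/3 : ℝ) • f 4)
    ((1/3 : ℝ) • f 1 + (2/3 : ℝ) • f 3) ((2/3 : ℝ) • f 3 + (1/3 : ℝ) • f 5) (f 3) (f 5)
    h24 (hne 2 4 (by decide)) (mem_seg _ _ _ _ (by norm_num) (by norm_num) (by norm_num))
    (mem_seg _ _ _ _ (by norm_num) (by norm_num) (by norm_num))
    (hP (hmem 1) (hmem 3) (by norm_num) (by norm_num) (by norm_num))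
    (hmem 3) (hmem 5) (mem_oseg _ _ _ _ (by norm_num) (by norm_num) (by norm_num))
    (hnot 3 2 4 (by decide) (by decide))
    (by simp only [map_add, map_smul, q0, q1, q2, q3, q4, q5]; module)
    (by simp only [map_add, map_smul, q0, q1, q2, q3, q4, q5]; module)
    (by simp only [map_add, map_smul, smul_eq_mul]; linarith)
  -- 14 below 03
  have s7 := key π (-Z) hinj' (f 1) (f 4)
    ((1/2 : ℝ) • f 1 + (1/2 : ℝ) • f 4) ((1/2 : ℝ) • f 1 + (1/2 : ℝ) • f 4)
    ((1/2 : ℝ) • f 2 + (1/2 : ℝ) • f 5) ((1/2 : ℝ) • f 0 + (1/2 : ℝ) • f 3) (f 0) (f 3)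
    h14 (hne 1 4 (by decide)) (mem_seg _ _ _ _ (by norm_num) (by norm_num) (by norm_num))
    (mem_seg _ _ _ _ (by norm_num) (by norm_num) (by norm_num))
    (hP (hmem 2) (hmem 5) (by norm_num) (by norm_num) (by norm_num))
    (hmem 0) (hmem 3) (mem_oseg _ _ _ _ (by norm_num) (by norm_num) (by norm_num))
    (hnot 0 1 4 (by decide) (by decide))
    (by simp only [map_add, map_smul, q0, q1, q2, q3, q4, q5]; module)
    (by simp only [map_add, map_smul, q0, q1, q2, q3, q4, q5]; module)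
    (by simp only [map_add, map_smul, smul_eq_mul, LinearMap.neg_apply]; linarith)
  simp only [map_add, map_smul, smul_eq_mul, LinearMap.neg_apply] at s5 s6 s7
  linarith

/-- The contradiction for the six diagonals of an affinely regular hexagon. -/
lemma contra (π : E →ₗ[ℝ] F) (Z : E →ₗ[ℝ] ℝ)
    (hinj : ∀ x y, π x = π y → Z x = Z y → x = y) (f : Fin 6 → E) (o A B : F)
    (hf : ∀ i, π (f i) = hex o A B i) (hπf : Function.Injective fun i => π (f i))
    (hext : ∀ v, f v ∈ extremePoints ℝ (convexHull ℝ (range f)))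
    (h15 : IsExtreme ℝ (convexHull ℝ (range f)) (segment ℝ (f 1) (f 5)))
    (h24 : IsExtreme ℝ (convexHull ℝ (range f)) (segment ℝ (f 2) (f 4)))
    (h25 : IsExtreme ℝ (convexHull ℝ (range f)) (segment ℝ (f 2) (f 5)))
    (h04 : IsExtreme ℝ (convexHull ℝ (range f)) (segment ℝ (f 0) (f 4)))
    (h14 : IsExtreme ℝ (convexHull ℝ (range f)) (segment ℝ (f 1) (f 4)))
    (h13 : IsExtreme ℝ (convexHull ℝ (range f)) (segment ℝ (f 1) (f 3))) : False := by
  have hmem : ∀ i, f i ∈ convexHull ℝ (range f) := fun i => subset_convexHull ℝ _ ⟨i, rfl⟩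
  have q0 : π (f 0) = o + A := by simpa [hex] using hf 0
  have q1 : π (f 1) = o + B := by simpa [hex] using hf 1
  have q2 : π (f 2) = o + (B - A) := by simpa [hex] using hf 2
  have q3 : π (f 3) = o - A := by simpa [hex] using hf 3
  have q4 : π (f 4) = o - B := by simpa [hex] using hf 4
  have q5 : π (f 5) = o + (A - B) := by simpa [hex] using hf 5
  have hnot : f 1 ∉ segment ℝ (f 2) (f 5) := by
    intro hc
    have h1 := (mem_extremePoints_iff_forall_segment.1 (hext 1)).2 _ (hmem 2) _ (hmem 5) hc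
    rcases h1 with h1 | h1
    · exact absurd (hπf (by simp [h1] : π (f 2) = π (f 1))) (by decide)
    · exact absurd (hπf (by simp [h1] : π (f 5) = π (f 1))) (by decide)
  have hne := ne_lemma (convexHull ℝ (range f)) π Z hinj (f 2) (f 5)
    ((1/2 : ℝ) • f 2 + (1/2 : ℝ) • f 5) ((1/2 : ℝ) • f 1 + (1/2 : ℝ) • f 4) (f 1) (f 4)
    h25 (mem_seg _ _ _ _ (by norm_num) (by norm_num) (by norm_num))
    (hmem 1) (hmem 4) (mem_oseg _ _ _ _ (by norm_num) (by norm_num) (by norm_num)) hnot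
    (by simp only [map_add, map_smul, q0, q1, q2, q3, q4, q5]; module)
  simp only [map_add, map_smul, smul_eq_mul] at hne
  rcases lt_or_gt_of_ne hne with h | h
  · refine contra_aux π (-Z) ?_ f o A B hf hπf hext h15 h24 h25 h04 h14 h13 ?_
    · intro x y h1 h2
      exact hinj x y h1 (by simpa using h2)
    · simp only [LinearMap.neg_apply]
      linarith
  · exact contra_aux π Z hinj f o A B hf hπf hext h15 h24 h25 h04 h14 h13 (by linarith)

end

end Pool.Agent.TH374.Shadow
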