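import Mathlib

set_option autoImplicit false

namespace Pool.Agent.TH374.Shadow

open Set

/-- Points of the convex hull of a finite family are convex combinations. -/
lemma mem_hull_iff {V E : Type} [Fintype V] [AddCommGroup E] [Module ℝ E] (g : V → E) (x : E) :
    x ∈ convexHull ℝ (range g) ↔
      ∃ w : V → ℝ, (∀ v, 0 ≤ w v) ∧ ∑ v, w v = 1 ∧ ∑ v, w v • g v = x := by
  classical
  have h : convexHull ℝ (range g) = (Fintype.linearCombination ℝ g) '' (stdSimplex ℝ V) := by
    rw [← convexHull_rangle_single_eq_stdSimplex, LinearMap.image_convexHull, ← Set.range_comp]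
    congr 2
    ext v
    simp [Fintype.linearCombination_apply_single]
  rw [h]
  constructor
  · rintro ⟨w, hw, rfl⟩
    exact ⟨w, hw.1, hw.2, by simp [Fintype.linearCombination_apply]⟩
  · rintro ⟨w, h1, h2, h3⟩
    exact ⟨w, ⟨h1, h2⟩, by simp [Fintype.linearCombination_apply, h3]⟩

/-- A linear functional that is maximal exactly at `g u` and `g v` shows that their segment is
extreme. -/
lemma extreme_of_functional {V E : Type} [Fintype V] [AddCommGroup E] [Module ℝ E] (g : V → E)
    (φ : E →ₗ[ℝ] ℝ) (M : ℝ) (u v : V) (hu : φ (g u) = M) (hv : φ (g v) = M)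
    (h : ∀ w, w ≠ u → w ≠ v → φ (g w) < M) :
    IsExtreme ℝ (convexHull ℝ (range g)) (segment ℝ (g u) (g v)) := by
  classical
  have hle : ∀ w, φ (g w) ≤ M := by
    intro w
    by_cases h1 : w = u
    · rw [h1, hu]
    by_cases h2 : w = v
    · rw [h2, hv]
    exact (h w h1 h2).le
  have hP : ∀ x ∈ convexHull ℝ (range g), φ x ≤ M := by
    intro x hx
    have : convexHull ℝ (range g) ⊆ {y | φ y ≤ M} := by
      apply convexHull_min
      · rintro _ ⟨w, rfl⟩; exact hle w
      · exact convex_halfSpace_le φ.isLinear M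
    exact this hx
  have hface : ∀ x ∈ convexHull ℝ (range g), φ x = M → x ∈ segment ℝ (g u) (g v) := by
    intro x hx hxM
    rw [mem_hull_iff] at hx
    obtain ⟨w, hw0, hw1, rfl⟩ := hx
    have hzero : ∀ a, a ≠ u → a ≠ v → w a = 0 := by
      intro a ha hb
      have hs : ∑ b, w b * (M - φ (g b)) = 0 := by
        have e1 : ∑ b, w b * φ (g b) = M := by
          rw [← hxM, map_sum]; simp
        have : ∑ b, w b * (M - φ (g b)) = (∑ b, w b) * M - ∑ b, w b * φ (g b) := by
          rw [Finset.sum_mul, ← Finset.sum_sub_distrib]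
          exact Finset.sum_congr rfl (fun b _ => by ring)
        rw [this, hw1, e1]; ring
      have hnn : ∀ b ∈ Finset.univ, 0 ≤ w b * (M - φ (g b)) := fun b _ =>
        mul_nonneg (hw0 b) (by linarith [hle b])
      have := (Finset.sum_eq_zero_iff_of_nonneg hnn).1 hs a (Finset.mem_univ a)
      rcases mul_eq_zero.1 this with h1 | h1
      · exact h1
      · exact absurd h1 (by have := h a ha hb; linarith)
    have hsub : ∀ (f : V → E), ∑ b, w b • f b = ∑ b ∈ ({u, v} : Finset V), w b • f b := by
      intro f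
      symm
      apply Finset.sum_subset (Finset.subset_univ _)
      intro a _ ha
      simp only [Finset.mem_insert, Finset.mem_singleton, not_or] at ha
      rw [hzero a ha.1 ha.2, zero_smul]
    have hsubR : ∑ b, w b = ∑ b ∈ ({u, v} : Finset V), w b := by
      symm
      apply Finset.sum_subset (Finset.subset_univ _)
      intro a _ ha
      simp only [Finset.mem_insert, Finset.mem_singleton, not_or] at ha
      exact hzero a ha.1 ha.2
    by_cases huv : u = v
    · subst huv
      rw [hsub]
      rw [hsubR] at hw1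
      simp at hw1
      simp [hw1]
    · rw [hsub, Finset.sum_pair huv]
      rw [hsubR, Finset.sum_pair huv] at hw1
      exact ⟨w u, w v, hw0 u, hw0 v, hw1, rfl⟩
  have hseg : ∀ z ∈ segment ℝ (g u) (g v), φ z = M := by
    rintro z ⟨a, b, _, _, hab, rfl⟩
    rw [map_add, map_smul, map_smul, hu, hv, smul_eq_mul, smul_eq_mul, ← add_mul, hab, one_mul]
  refine ⟨?_, ?_⟩
  · exact segment_subset_convexHull ⟨u, rfl⟩ ⟨v, rfl⟩
  · intro x hx y hy z hz hzxy
    apply hface x hx
    obtain ⟨a, b, ha, hb, hab, rfl⟩ := hzxy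
    have h1 := hseg _ hz
    rw [map_add, map_smul, map_smul, smul_eq_mul, smul_eq_mul] at h1
    have h2 := hP x hx
    have h3 := hP y hy
    by_contra hne
    have h4 : φ x < M := lt_of_le_of_ne h2 hne
    have h5 : a * φ x + b * φ y < a * M + b * M := by
      have := mul_lt_mul_of_pos_left h4 ha
      have := mul_le_mul_of_nonneg_left h3 hb.le
      linarith
    rw [← add_mul, hab, one_mul] at h5
    linarith

section Sign

variable {E F : Type} [AddCommGroup E] [Module ℝ E] [AddCommGroup F] [Module ℝ F]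

/-- projections are injective on a segment whose end points have distinct projections -/
lemma seg_inj (π : E →ₗ[ℝ] F) (u v x y : E) (huv : π u ≠ π v)
    (hx : x ∈ segment ℝ u v) (hy : y ∈ segment ℝ u v) (h : π x = π y) : x = y := by
  obtain ⟨a, b, _, _, hab, rfl⟩ := hx
  obtain ⟨c, d, _, _, hcd, rfl⟩ := hy
  have ha : a = 1 - b := by linarith
  have hc : c = 1 - d := by linarith
  subst ha; subst hc
  have h1 : (b - d) • (π v - π u) = 0 := by
    have : (b - d) • (π v - π u) = π ((1 - b) • u + b • v) - π ((1 - d) • u + d • v) := by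
      simp only [map_add, map_smul]
      module
    rw [this, h, sub_self]
  rcases smul_eq_zero.1 h1 with h2 | h2
  · have : b = d := by linarith
    rw [this]
  · exact absurd (sub_eq_zero.1 h2).symm huv

/-- Sign lemma: an extreme segment lies on one side. -/
lemma sign_lemma (P : Set E) (π : E →ₗ[ℝ] F) (Z : E →ₗ[ℝ] ℝ)
    (hinj : ∀ x y, π x = π y → Z x = Z y → x = y) (u v x y x' y' : E)
    (hext : IsExtreme ℝ P (segment ℝ u v)) (huv : π u ≠ π v)
    (hx : x ∈ segment ℝ u v) (hy : y ∈ segment ℝ u v) (hx' : x' ∈ P) (hy' : y' ∈ P)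
    (h1 : π x = π x') (h2 : π y = π y') (hlt : Z x' < Z x) : Z y' ≤ Z y := by
  by_contra hcon
  rw [not_le] at hcon
  set a := Z x - Z x' with ha
  set b := Z y' - Z y with hb
  have hap : 0 < a := by rw [ha]; linarith
  have hbp : 0 < b := by rw [hb]; linarith
  have hs : 0 < a + b := by linarith
  set z := (b / (a + b)) • x + (a / (a + b)) • y with hz
  have hsum : b / (a + b) + a / (a + b) = 1 := by field_simp; ring
  have hz1 : z ∈ segment ℝ u v :=
    (convex_segment u v) hx hy (by positivity) (by positivity) hsum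
  have hz2 : z = (b / (a + b)) • x' + (a / (a + b)) • y' := by
    apply hinj
    · rw [hz, map_add, map_add, map_smul, map_smul, map_smul, map_smul, h1, h2]
    · rw [hz, map_add, map_add, map_smul, map_smul, map_smul, map_smul]
      simp only [smul_eq_mul]
      have e1 : Z x = Z x' + a := by rw [ha]; ring
      have e2 : Z y = Z y' - b := by rw [hb]; ring
      rw [e1, e2]
      field_simp
      ring
  have hz3 : z ∈ openSegment ℝ x' y' :=
    ⟨b / (a + b), a / (a + b), by positivity, by positivity, hsum, hz2.symm⟩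
  have hx'' := hext.2 hx' hy' hz1 hz3
  have := seg_inj π u v x x' huv hx hx'' h1
  rw [this] at hlt
  exact lt_irrefl _ hlt

/-- Two crossing segments, one of them extreme, cannot meet. -/
lemma ne_lemma (P : Set E) (π : E →ₗ[ℝ] F) (Z : E →ₗ[ℝ] ℝ)
    (hinj : ∀ x y, π x = π y → Z x = Z y → x = y) (u v x x' c d : E)
    (hext : IsExtreme ℝ P (segment ℝ u v))
    (hx : x ∈ segment ℝ u v) (hc : c ∈ P) (hd : d ∈ P) (hx' : x' ∈ openSegment ℝ c d)
    (hcs : c ∉ segment ℝ u v)
    (h1 : π x = π x') : Z x ≠ Z x' := by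
  intro h2
  have := hinj x x' h1 h2
  subst this
  exact hcs (hext.2 hc hd hx hx')

/-- strict form of the sign lemma -/
lemma sign_strict (P : Set E) (hP : Convex ℝ P) (π : E →ₗ[ℝ] F) (Z : E →ₗ[ℝ] ℝ)
    (hinj : ∀ x y, π x = π y → Z x = Z y → x = y) (u v x y x' y' c d : E)
    (hext : IsExtreme ℝ P (segment ℝ u v)) (huv : π u ≠ π v)
    (hx : x ∈ segment ℝ u v) (hy : y ∈ segment ℝ u v) (hx' : x' ∈ P)
    (hc : c ∈ P) (hd : d ∈ P) (hy' : y' ∈ openSegment ℝ c d) (hcs : c ∉ segment ℝ u v)
    (h1 : π x = π x') (h2 : π y = π y') (hlt : Z x' < Z x) : Z y' < Z y := by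
  have hy'P : y' ∈ P := hP.openSegment_subset hc hd hy'
  refine lt_of_le_of_ne
    (sign_lemma P π Z hinj u v x y x' y' hext huv hx hy hx' hy'P h1 h2 hlt) ?_
  exact fun h => ne_lemma P π Z hinj u v y y' c d hext hy hc hd hy' hcs h2 h.symm

end Sign

end Pool.Agent.TH374.Shadow
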