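import Pool.Agent.TH374.Shadow.Outline

set_option autoImplicit false
set_option linter.unusedSimpArgs false

namespace Pool.Agent.TH374.Shadow

open Set

/-- adjacency of the graph: all pairs except `02`, `03`, `35` -/
def adj0 (u v : Fin 6) : Prop :=
  u ≠ v ∧ (u, v) ∉ ([(0, 2), (2, 0), (0, 3), (3, 0), (3, 5), (5, 3)] : List (Fin 6 × Fin 6))

instance : DecidableRel adj0 := fun u v => by unfold adj0; infer_instance

/-- the graph: all pairs except `02`, `03`, `35` -/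
def G0 : SimpleGraph (Fin 6) where
  Adj := adj0
  symm := ⟨by decide⟩
  loopless := ⟨fun _ h => h.1 rfl⟩

instance : DecidableRel G0.Adj := fun u v => by unfold G0; infer_instance

def c0 : G0.Walk 0 0 :=
  .cons (v := 1) (by decide) (.cons (v := 2) (by decide) (.cons (v := 3) (by decide)
    (.cons (v := 4) (by decide) (.cons (v := 5) (by decide) (.cons (v := 0) (by decide) .nil)))))

lemma c0_cycle : c0.IsCycle := by
  rw [SimpleGraph.Walk.isCycle_def]
  refine ⟨?_, ?_, ?_⟩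
  · rw [SimpleGraph.Walk.isTrail_def]
    decide
  · simp [c0]
  · decide

lemma adj_succ (u : Fin 6) : G0.Adj u (u + 1) := by
  revert u; decide

lemma c0_darts (u : Fin 6) : (⟨(u, u + 1), adj_succ u⟩ : G0.Dart) ∈ c0.darts := by
  fin_cases u <;> simp [c0]

/-- integer coordinates of a realisation of `G0` -/
def gq : Fin 6 → (Fin 3 → ℤ) :=
  ![![2, -1, 2], ![0, 0, 0], ![0, 8, 0], ![2, 2, -1], ![8, 0, 0], ![0, 0, 8]]

/-- a realisation of `G0` -/
noncomputable def g0 : Fin 6 → (Fin 3 → ℝ) := fun i j => (gq i j : ℝ)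

noncomputable def lin (c0 c1 c2 : ℝ) : (Fin 3 → ℝ) →ₗ[ℝ] ℝ where
  toFun p := c0 * p 0 + c1 * p 1 + c2 * p 2
  map_add' p q := by simp; ring
  map_smul' r p := by simp; ring

lemma lin_g0 (c0 c1 c2 : ℤ) (w : Fin 6) :
    lin c0 c1 c2 (g0 w) = ((c0 * gq w 0 + c1 * gq w 1 + c2 * gq w 2 : ℤ) : ℝ) := by
  simp [lin, g0]

lemma ext_edge (u v : Fin 6) (c0 c1 c2 M : ℤ)
    (h : ∀ w, if w = u ∨ w = v then c0 * gq w 0 + c1 * gq w 1 + c2 * gq w 2 = M
      else c0 * gq w 0 + c1 * gq w 1 + c2 * gq w 2 < M) :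
    IsExtreme ℝ (convexHull ℝ (range g0)) (segment ℝ (g0 u) (g0 v)) := by
  apply extreme_of_functional g0 (lin c0 c1 c2) (M : ℝ) u v
  · rw [lin_g0]
    have := h u
    rw [if_pos (Or.inl rfl)] at this
    rw [this]
  · rw [lin_g0]
    have := h v
    rw [if_pos (Or.inr rfl)] at this
    rw [this]
  · intro w h1 h2
    rw [lin_g0]
    have := h w
    rw [if_neg (by tauto)] at this
    exact_mod_cast this

lemma ext_edge_symm (u v : Fin 6)
    (h : IsExtreme ℝ (convexHull ℝ (range g0)) (segment ℝ (g0 u) (g0 v))) :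
    IsExtreme ℝ (convexHull ℝ (range g0)) (segment ℝ (g0 v) (g0 u)) := by
  rwa [segment_symm]

lemma ext_all : ∀ v, g0 v ∈ extremePoints ℝ (convexHull ℝ (range g0)) := by
  intro v
  have key : ∀ c0 c1 c2 M : ℤ,
      (∀ w, if w = v ∨ w = v then c0 * gq w 0 + c1 * gq w 1 + c2 * gq w 2 = M
      else c0 * gq w 0 + c1 * gq w 1 + c2 * gq w 2 < M) →
      g0 v ∈ extremePoints ℝ (convexHull ℝ (range g0)) := by
    intro c0 c1 c2 M h
    have := ext_edge v v c0 c1 c2 M h
    rw [segment_same] at this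
    exact this.mem_extremePoints
  fin_cases v
  · exact key 0 (-1) 0 1 (by decide)
  · exact key (-1) (-1) (-1) 0 (by decide)
  · exact key 0 1 0 8 (by decide)
  · exact key 0 0 (-1) 1 (by decide)
  · exact key 1 0 0 8 (by decide)
  · exact key 0 0 1 8 (by decide)

lemma g0_inj : Function.Injective g0 := by
  intro i j h
  have h0 := congrFun h 0
  have h1 := congrFun h 1
  have h2 := congrFun h 2
  simp only [g0, Int.cast_inj] at h0 h1 h2
  clear h
  revert h0 h1 h2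
  revert i j
  decide

lemma nonext (u v : Fin 6) (hu : 1 ≠ u) (hv : 1 ≠ v) (z q : Fin 3 → ℝ) (s : ℝ) (hs : 0 < s)
    (hs1 : s < 1) (hz : z ∈ segment ℝ (g0 u) (g0 v)) (hq : q ∈ convexHull ℝ (range g0))
    (hzq : z = (1 - s) • g0 1 + s • q) :
    ¬ IsExtreme ℝ (convexHull ℝ (range g0)) (segment ℝ (g0 u) (g0 v)) := by
  intro h
  have hmem : ∀ i, g0 i ∈ convexHull ℝ (range g0) := fun i => subset_convexHull ℝ _ ⟨i, rfl⟩
  have h1 : g0 1 ∈ segment ℝ (g0 u) (g0 v) :=
    h.2 (hmem 1) hq hz ⟨1 - s, s, by linarith, hs, by ring, hzq.symm⟩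
  have h2 := (mem_extremePoints_iff_forall_segment.1 (ext_all 1)).2 _ (hmem u) _ (hmem v) h1
  rcases h2 with h2 | h2
  · exact hu (g0_inj h2).symm
  · exact hv (g0_inj h2).symm

lemma mem_of_weights (w : Fin 6 → ℝ) (h0 : ∀ i, 0 ≤ w i) (h1 : ∑ i, w i = 1) (q : Fin 3 → ℝ)
    (hq : ∀ j, ∑ i, w i * g0 i j = q j) : q ∈ convexHull ℝ (range g0) := by
  rw [mem_hull_iff]
  refine ⟨w, h0, h1, ?_⟩
  ext j
  rw [Finset.sum_apply]
  simpa using hq j

lemma non02 : ¬ IsExtreme ℝ (convexHull ℝ (range g0)) (segment ℝ (g0 0) (g0 2)) := by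
  refine nonext 0 2 (by decide) (by decide) ![4/3, 2, 4/3] ![2, 3, 2] (2/3) (by norm_num)
    (by norm_num) ?_ ?_ ?_
  · refine ⟨2/3, 1/3, by norm_num, by norm_num, by norm_num, ?_⟩
    ext j; fin_cases j <;> simp [g0, gq] <;> norm_num
  · apply mem_of_weights ![0, 1/8, 3/8, 0, 2/8, 2/8]
    · intro i; fin_cases i <;> simp <;> norm_num
    · simp [Fin.sum_univ_succ]; norm_num
    · intro j; fin_cases j <;> simp [Fin.sum_univ_succ, g0, gq] <;> norm_num
  · ext j; fin_cases j <;> simp [g0, gq] <;> norm_num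

lemma non35 : ¬ IsExtreme ℝ (convexHull ℝ (range g0)) (segment ℝ (g0 3) (g0 5)) := by
  refine nonext 3 5 (by decide) (by decide) ![4/3, 4/3, 2] ![2, 2, 3] (2/3) (by norm_num)
    (by norm_num) ?_ ?_ ?_
  · refine ⟨2/3, 1/3, by norm_num, by norm_num, by norm_num, ?_⟩
    ext j; fin_cases j <;> simp [g0, gq] <;> norm_num
  · apply mem_of_weights ![0, 1/8, 2/8, 0, 2/8, 3/8]
    · intro i; fin_cases i <;> simp <;> norm_num
    · simp [Fin.sum_univ_succ]; norm_num
    · intro j; fin_cases j <;> simp [Fin.sum_univ_succ, g0, gq] <;> norm_num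
  · ext j; fin_cases j <;> simp [g0, gq] <;> norm_num

lemma non03 : ¬ IsExtreme ℝ (convexHull ℝ (range g0)) (segment ℝ (g0 0) (g0 3)) := by
  refine nonext 0 3 (by decide) (by decide) ![2, 1/2, 1/2] ![4, 1, 1] (1/2) (by norm_num)
    (by norm_num) ?_ ?_ ?_
  · refine ⟨1/2, 1/2, by norm_num, by norm_num, by norm_num, ?_⟩
    ext j; fin_cases j <;> simp [g0, gq] <;> norm_num
  · apply mem_of_weights ![0, 2/8, 1/8, 0, 4/8, 1/8]
    · intro i; fin_cases i <;> simp <;> norm_num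
    · simp [Fin.sum_univ_succ]; norm_num
    · intro j; fin_cases j <;> simp [Fin.sum_univ_succ, g0, gq] <;> norm_num
  · ext j; fin_cases j <;> simp [g0, gq] <;> norm_num

lemma adj_iff_aux (u v : Fin 6) (h : u < v) : adj0 u v ↔
    IsExtreme ℝ (convexHull ℝ (range g0)) (segment ℝ (g0 u) (g0 v)) := by
  have hall : ∀ u v : Fin 6, u < v → (u = 0 ∧ v = 1) ∨ (u = 0 ∧ v = 2) ∨ (u = 0 ∧ v = 3) ∨
      (u = 0 ∧ v = 4) ∨ (u = 0 ∧ v = 5) ∨ (u = 1 ∧ v = 2) ∨ (u = 1 ∧ v = 3) ∨ (u = 1 ∧ v = 4) ∨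
      (u = 1 ∧ v = 5) ∨ (u = 2 ∧ v = 3) ∨ (u = 2 ∧ v = 4) ∨ (u = 2 ∧ v = 5) ∨ (u = 3 ∧ v = 4) ∨
      (u = 3 ∧ v = 5) ∨ (u = 4 ∧ v = 5) := by decide
  rcases hall u v h with ⟨rfl, rfl⟩ | ⟨rfl, rfl⟩ | ⟨rfl, rfl⟩ | ⟨rfl, rfl⟩ | ⟨rfl, rfl⟩ |
    ⟨rfl, rfl⟩ | ⟨rfl, rfl⟩ | ⟨rfl, rfl⟩ | ⟨rfl, rfl⟩ | ⟨rfl, rfl⟩ | ⟨rfl, rfl⟩ | ⟨rfl, rfl⟩ |
    ⟨rfl, rfl⟩ | ⟨rfl, rfl⟩ | ⟨rfl, rfl⟩
  · exact ⟨fun _ => ext_edge 0 1 (-1) (-4) (-1) 0 (by decide), fun _ => by decide⟩
  · exact ⟨fun h => absurd h (by decide), fun h => absurd h non02⟩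
  · exact ⟨fun h => absurd h (by decide), fun h => absurd h non03⟩
  · exact ⟨fun _ => ext_edge 0 4 1 (-6) 0 8 (by decide), fun _ => by decide⟩
  · exact ⟨fun _ => ext_edge 0 5 0 (-6) 1 8 (by decide), fun _ => by decide⟩
  · exact ⟨fun _ => ext_edge 1 2 (-2) 0 (-2) 0 (by decide), fun _ => by decide⟩
  · exact ⟨fun _ => ext_edge 1 3 (-1) (-1) (-4) 0 (by decide), fun _ => by decide⟩
  · exact ⟨fun _ => ext_edge 1 4 0 (-3) (-3) 0 (by decide), fun _ => by decide⟩
  · exact ⟨fun _ => ext_edge 1 5 (-2) (-2) 0 0 (by decide), fun _ => by decide⟩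
  · exact ⟨fun _ => ext_edge 2 3 0 1 (-6) 8 (by decide), fun _ => by decide⟩
  · exact ⟨fun _ => ext_edge 2 4 2 2 (-3) 16 (by decide), fun _ => by decide⟩
  · exact ⟨fun _ => ext_edge 2 5 0 1 1 8 (by decide), fun _ => by decide⟩
  · exact ⟨fun _ => ext_edge 3 4 1 0 (-6) 8 (by decide), fun _ => by decide⟩
  · exact ⟨fun h => absurd h (by decide), fun h => absurd h non35⟩
  · exact ⟨fun _ => ext_edge 4 5 2 (-3) 2 16 (by decide), fun _ => by decide⟩

lemma adj_iff (u v : Fin 6) : G0.Adj u v ↔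
    (u ≠ v ∧ IsExtreme ℝ (convexHull ℝ (range g0)) (segment ℝ (g0 u) (g0 v))) := by
  rcases lt_trichotomy u v with h | h | h
  · rw [show G0.Adj u v ↔ adj0 u v from Iff.rfl, adj_iff_aux u v h]
    exact ⟨fun h' => ⟨h.ne, h'⟩, fun h' => h'.2⟩
  · subst h
    exact ⟨fun h => absurd rfl h.1, fun h => absurd rfl h.1⟩
  · rw [G0.adj_comm, show G0.Adj v u ↔ adj0 v u from Iff.rfl, adj_iff_aux v u h, segment_symm]
    exact ⟨fun h' => ⟨h.ne', h'⟩, fun h' => h'.2⟩

lemma g0_interior : (interior (convexHull ℝ (range g0))).Nonempty := by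
  have hsub : {p : Fin 3 → ℝ | 0 < p 0 ∧ 0 < p 1 ∧ 0 < p 2 ∧ p 0 + p 1 + p 2 < 8} ⊆
      convexHull ℝ (range g0) := by
    rintro p ⟨h0, h1, h2, h3⟩
    apply mem_of_weights ![0, 1 - (p 0 + p 1 + p 2) / 8, p 1 / 8, 0, p 0 / 8, p 2 / 8]
    · intro i
      fin_cases i <;> simp <;> linarith
    · simp [Fin.sum_univ_succ]; ring
    · intro j; fin_cases j <;> simp [Fin.sum_univ_succ, g0, gq] <;> ring
  have hopen : IsOpen {p : Fin 3 → ℝ | 0 < p 0 ∧ 0 < p 1 ∧ 0 < p 2 ∧ p 0 + p 1 + p 2 < 8} := by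
    apply IsOpen.inter (isOpen_lt continuous_const (continuous_apply 0))
    apply IsOpen.inter (isOpen_lt continuous_const (continuous_apply 1))
    apply IsOpen.inter (isOpen_lt continuous_const (continuous_apply 2))
    exact isOpen_lt (((continuous_apply 0).add (continuous_apply 1)).add (continuous_apply 2))
      continuous_const
  refine ⟨![1, 1, 1], interior_maximal hsub hopen ?_⟩
  simp; norm_num

lemma succ_ne (u : Fin 6) : u ≠ u + 1 := by revert u; decide

/-- Combinatorial and metric consequences of having an affinely regular hexagon as shadow. -/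
lemma outline_hex (f : Fin 6 → (Fin 3 → ℝ)) (o a b : Fin 2 → ℝ)
    (hD : a 0 * b 1 - a 1 * b 0 ≠ 0)
    (hint : (interior (convexHull ℝ (range f))).Nonempty)
    (hproj : projL '' convexHull ℝ (range f) = convexHull ℝ (range (hex o a b)))
    (hfr : ∀ u : Fin 6, (1/2 : ℝ) • projL (f u) + (1/2 : ℝ) • projL (f (u + 1)) ∈
      frontier (convexHull ℝ (range (hex o a b)))) :
    ∃ A B : Fin 2 → ℝ, (∀ i, projL (f i) = hex o A B i) ∧
      Function.Injective fun i => projL (f i) := by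
  have hint' : (interior (convexHull ℝ (range (hex o a b)))).Nonempty := by
    obtain ⟨x, hx⟩ := hint
    have hsurj : Function.Surjective projL := by
      intro y
      refine ⟨![y 0, y 1, 0], ?_⟩
      ext i; fin_cases i <;> simp [projL_apply]
    have hop : IsOpenMap (projL.toContinuousLinearMap) :=
      ContinuousLinearMap.isOpenMap _ hsurj
    have h1 : IsOpen (projL '' interior (convexHull ℝ (range f))) :=
      hop _ isOpen_interior
    have h2 : projL '' interior (convexHull ℝ (range f)) ⊆ convexHull ℝ (range (hex o a b)) := by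
      rw [← hproj]
      exact image_mono interior_subset
    exact ⟨projL x, interior_maximal h2 h1 ⟨x, hx, rfl⟩⟩
  have hproj2 : convexHull ℝ (range fun v => projL (f v)) = convexHull ℝ (range (hex o a b)) := by
    rw [← hproj, LinearMap.image_convexHull, ← range_comp]
    rfl
  have hex1 : ∀ i, ∃ v, projL (f v) = hex o a b i := by
    intro i
    have h1 := hex_extreme o a b hD i
    rw [← hproj2] at h1
    obtain ⟨v, hv⟩ := extremePoints_convexHull_subset h1
    exact ⟨v, hv⟩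
  choose τ hτ using hex1
  have hτinj : Function.Injective τ := by
    intro i j hij
    apply hex_inj o a b hD
    rw [← hτ i, ← hτ j, hij]
  have hτb : Function.Bijective τ := Finite.injective_iff_bijective.1 hτinj
  obtain ⟨σ, hσ1, hσ2⟩ := Function.bijective_iff_has_inverse.1 hτb
  have hf : ∀ v, projL (f v) = hex o a b (σ v) := by
    intro v
    rw [← hτ (σ v), hσ2 v]
  have hσinj : Function.Injective σ := hσ2.injective
  have hstep : ∀ u, σ (u + 1) = σ u + 1 ∨ σ u = σ (u + 1) + 1 := by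
    intro u
    apply hex_adj o a b hD hint'
    · intro h
      exact succ_ne u (hσinj h)
    · have := hfr u
      rwa [hf, hf] at this
  have hinj : Function.Injective fun i => projL (f i) := by
    intro i j hij
    simp only [hf] at hij
    exact hσinj (hex_inj o a b hD hij)
  rcases cyc σ hσinj hstep with h | h
  · obtain ⟨A, B, hAB⟩ := hex_rot o a b (σ 0)
    exact ⟨A, B, fun i => by rw [hf, h, hAB], hinj⟩
  · obtain ⟨A, B, hAB⟩ := hex_refl o a b (σ 0)
    exact ⟨A, B, fun i => by rw [hf, h, hAB], hinj⟩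

end Pool.Agent.TH374.Shadow
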