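import Pool.Agent.TH374.Shadow.Contra

set_option autoImplicit false
set_option linter.unusedSimpArgs false

namespace Pool.Agent.TH374.Shadow

open Set

/-- orthogonal projection to the first two coordinates, as a linear map -/
noncomputable def projL : (Fin 3 → ℝ) →ₗ[ℝ] (Fin 2 → ℝ) where
  toFun p := ![p 0, p 1]
  map_add' p q := by ext i; fin_cases i <;> simp
  map_smul' r p := by ext i; fin_cases i <;> simp

lemma projL_apply (p : Fin 3 → ℝ) : projL p = ![p 0, p 1] := rfl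

lemma det_ne (a b : Fin 2 → ℝ) (h : LinearIndependent ℝ ![a, b]) :
    a 0 * b 1 - a 1 * b 0 ≠ 0 := by
  intro hD
  rw [LinearIndependent.pair_iff] at h
  have h1 := h (b 1) (-(a 1)) (by
    ext i; fin_cases i
    · simp; linarith
    · simp; ring)
  have h2 := h (b 0) (-(a 0)) (by
    ext i; fin_cases i
    · simp; ring
    · simp; linarith)
  have ha : a = 0 := by
    ext i; fin_cases i
    · simpa using h2.2
    · simpa using h1.2
  have := h 1 0 (by simp [ha])
  exact one_ne_zero this.1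

lemma expand (a b p : Fin 2 → ℝ) (hD : a 0 * b 1 - a 1 * b 0 ≠ 0) :
    p = ((p 0 * b 1 - p 1 * b 0) / (a 0 * b 1 - a 1 * b 0)) • a
      + ((a 0 * p 1 - a 1 * p 0) / (a 0 * b 1 - a 1 * b 0)) • b := by
  ext i
  fin_cases i
  · simp only [Pi.add_apply, Pi.smul_apply, smul_eq_mul, Fin.zero_eta, Fin.isValue]
    rw [div_mul_eq_mul_div, div_mul_eq_mul_div, ← add_div, eq_div_iff hD]
    ring
  · simp only [Pi.add_apply, Pi.smul_apply, smul_eq_mul, Fin.mk_one, Fin.isValue]
    rw [div_mul_eq_mul_div, div_mul_eq_mul_div, ← add_div, eq_div_iff hD]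
    ring

/-- The coordinate functional killing `b`. -/
noncomputable def fα (a b : Fin 2 → ℝ) : (Fin 2 → ℝ) →ₗ[ℝ] ℝ where
  toFun p := (p 0 * b 1 - p 1 * b 0) / (a 0 * b 1 - a 1 * b 0)
  map_add' p q := by simp; ring
  map_smul' r p := by simp; ring

noncomputable def fβ (a b : Fin 2 → ℝ) : (Fin 2 → ℝ) →ₗ[ℝ] ℝ where
  toFun p := (a 0 * p 1 - a 1 * p 0) / (a 0 * b 1 - a 1 * b 0)
  map_add' p q := by simp; ring
  map_smul' r p := by simp; ring

lemma fα_a (a b : Fin 2 → ℝ) (hD : a 0 * b 1 - a 1 * b 0 ≠ 0) : fα a b a = 1 := by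
  simp only [fα, LinearMap.coe_mk, AddHom.coe_mk]
  exact div_self hD
lemma fα_b (a b : Fin 2 → ℝ) : fα a b b = 0 := by
  simp only [fα, LinearMap.coe_mk, AddHom.coe_mk]
  rw [mul_comm (b 0), sub_self, zero_div]
lemma fβ_b (a b : Fin 2 → ℝ) (hD : a 0 * b 1 - a 1 * b 0 ≠ 0) : fβ a b b = 1 := by
  simp only [fβ, LinearMap.coe_mk, AddHom.coe_mk]
  exact div_self hD
lemma fβ_a (a b : Fin 2 → ℝ) : fβ a b a = 0 := by
  simp only [fβ, LinearMap.coe_mk, AddHom.coe_mk]
  rw [mul_comm (a 0), sub_self, zero_div]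

lemma hex_inj (o a b : Fin 2 → ℝ) (hD : a 0 * b 1 - a 1 * b 0 ≠ 0) :
    Function.Injective (hex o a b) := by
  intro i j hij
  have h1 : fα a b (hex o a b i) = fα a b (hex o a b j) := by rw [hij]
  have h2 : fβ a b (hex o a b i) = fβ a b (hex o a b j) := by rw [hij]
  fin_cases i <;> fin_cases j <;> first
    | rfl
    | (exfalso
       simp [hex, fα_a a b hD, fα_b, fβ_a, fβ_b a b hD] at h1 h2
       try linarith)

/-- vertices of the hexagon are extreme -/
lemma hex_extreme (o a b : Fin 2 → ℝ) (hD : a 0 * b 1 - a 1 * b 0 ≠ 0) (i : Fin 6) :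
    hex o a b i ∈ extremePoints ℝ (convexHull ℝ (range (hex o a b))) := by
  have key : ∀ (φ : (Fin 2 → ℝ) →ₗ[ℝ] ℝ), (∀ w, w ≠ i → φ (hex o a b w) < φ (hex o a b i)) →
      hex o a b i ∈ extremePoints ℝ (convexHull ℝ (range (hex o a b))) := by
    intro φ hφ
    have := extreme_of_functional (hex o a b) φ (φ (hex o a b i)) i i rfl rfl
      (fun w hw _ => hφ w hw)
    rw [segment_same] at this
    exact this.mem_extremePoints
  fin_cases i
  · apply key ((2 : ℝ) • fα a b + fβ a b)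
    intro w hw
    fin_cases w <;> simp [hex, fα_a a b hD, fα_b, fβ_a, fβ_b a b hD] at hw ⊢ <;> linarith
  · apply key (fα a b + (2 : ℝ) • fβ a b)
    intro w hw
    fin_cases w <;> simp [hex, fα_a a b hD, fα_b, fβ_a, fβ_b a b hD] at hw ⊢ <;> linarith
  · apply key (fβ a b - fα a b)
    intro w hw
    fin_cases w <;> simp [hex, fα_a a b hD, fα_b, fβ_a, fβ_b a b hD] at hw ⊢ <;> linarith
  · apply key (-((2 : ℝ) • fα a b + fβ a b))
    intro w hw
    fin_cases w <;> simp [hex, fα_a a b hD, fα_b, fβ_a, fβ_b a b hD] at hw ⊢ <;> linarith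
  · apply key (-(fα a b + (2 : ℝ) • fβ a b))
    intro w hw
    fin_cases w <;> simp [hex, fα_a a b hD, fα_b, fβ_a, fβ_b a b hD] at hw ⊢ <;> linarith
  · apply key (fα a b - fβ a b)
    intro w hw
    fin_cases w <;> simp [hex, fα_a a b hD, fα_b, fβ_a, fβ_b a b hD] at hw ⊢ <;> linarith

/-- a midpoint of two hexagon vertices on the frontier comes from adjacent vertices -/
lemma hex_adj (o a b : Fin 2 → ℝ) (hD : a 0 * b 1 - a 1 * b 0 ≠ 0)
    (hint : (interior (convexHull ℝ (range (hex o a b)))).Nonempty) (i j : Fin 6) (hij : i ≠ j)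
    (hx : (1/2 : ℝ) • hex o a b i + (1/2 : ℝ) • hex o a b j ∈
      frontier (convexHull ℝ (range (hex o a b)))) : j = i + 1 ∨ i = j + 1 := by
  obtain ⟨φ, hφ0, hφ⟩ := geometric_hahn_banach_of_nonempty_interior_point
    (convex_convexHull ℝ (range (hex o a b))) hx.2 hint
  have hz : φ a = 0 → φ b = 0 → False := by
    intro h1 h2
    apply hφ0
    ext p
    rw [expand a b p hD]
    simp [h1, h2]
  have e0 : φ (hex o a b 0) = φ o + φ a := by simp [hex]
  have e1 : φ (hex o a b 1) = φ o + φ b := by simp [hex]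
  have e2 : φ (hex o a b 2) = φ o + (φ b - φ a) := by simp [hex]
  have e3 : φ (hex o a b 3) = φ o - φ a := by simp [hex]
  have e4 : φ (hex o a b 4) = φ o - φ b := by simp [hex]
  have e5 : φ (hex o a b 5) = φ o + (φ a - φ b) := by simp [hex]
  have hv : ∀ k, φ (hex o a b k) ≤ (1/2 : ℝ) * φ (hex o a b i) + (1/2 : ℝ) * φ (hex o a b j) := by
    intro k
    have := hφ _ (subset_convexHull ℝ _ ⟨k, rfl⟩)
    simpa only [map_add, map_smul, smul_eq_mul] using this
  have h0 := hv 0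
  have h1 := hv 1
  have h2 := hv 2
  have h3 := hv 3
  have h4 := hv 4
  have h5 := hv 5
  rw [e0] at h0
  rw [e1] at h1
  rw [e2] at h2
  rw [e3] at h3
  rw [e4] at h4
  rw [e5] at h5
  by_contra hcon
  clear hx hφ hv hφ0 hint
  have hi : i = 0 ∨ i = 1 ∨ i = 2 ∨ i = 3 ∨ i = 4 ∨ i = 5 := by
    fin_cases i <;> simp
  have hj : j = 0 ∨ j = 1 ∨ j = 2 ∨ j = 3 ∨ j = 4 ∨ j = 5 := by
    fin_cases j <;> simp
  rcases hi with rfl | rfl | rfl | rfl | rfl | rfl <;>
  rcases hj with rfl | rfl | rfl | rfl | rfl | rfl <;> first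
    | exact hij rfl
    | exact hcon (by decide)
    | (simp only [e0, e1, e2, e3, e4, e5] at h0 h1 h2 h3 h4 h5
       exact hz (by linarith) (by linarith))

/-- cyclic structure -/
lemma cyc (σ : Fin 6 → Fin 6) (hσ : Function.Injective σ)
    (h : ∀ u, σ (u + 1) = σ u + 1 ∨ σ u = σ (u + 1) + 1) :
    (∀ i, σ i = σ 0 + i) ∨ (∀ i, σ i = σ 0 - i) := by
  have hstep : ∀ u, (σ (u + 1) = σ u + 1 → σ (u + 1 + 1) = σ (u + 1) + 1) ∧
      (σ (u + 1) = σ u - 1 → σ (u + 1 + 1) = σ (u + 1) - 1) := by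
    intro u
    have hne : σ (u + 1 + 1) ≠ σ u := by
      intro h1
      have := hσ h1
      revert this
      fin_cases u <;> decide
    constructor
    · intro h1
      rcases h (u + 1) with h2 | h2
      · exact h2
      · exfalso
        apply hne
        have : σ (u + 1 + 1) = σ (u + 1) - 1 := eq_sub_of_add_eq h2.symm
        rw [this, h1]; abel
    · intro h1
      rcases h (u + 1) with h2 | h2
      · exfalso
        apply hne
        rw [h2, h1]; abel
      · exact eq_sub_of_add_eq h2.symm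
  rcases h 0 with h0 | h0
  · left
    have h1 := (hstep 0).1 h0
    have h2 := (hstep (0 + 1)).1 h1
    have h3 := (hstep (0 + 1 + 1)).1 h2
    have h4 := (hstep (0 + 1 + 1 + 1)).1 h3
    intro i
    fin_cases i
    · simp
    · exact h0
    · show σ (0 + 1 + 1) = σ 0 + 2
      rw [h1, h0, add_assoc]; rfl
    · show σ (0 + 1 + 1 + 1) = σ 0 + 3
      rw [h2, h1, h0, add_assoc, add_assoc]; rfl
    · show σ (0 + 1 + 1 + 1 + 1) = σ 0 + 4
      rw [h3, h2, h1, h0, add_assoc, add_assoc, add_assoc]; rfl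
    · show σ (0 + 1 + 1 + 1 + 1 + 1) = σ 0 + 5
      rw [h4, h3, h2, h1, h0, add_assoc, add_assoc, add_assoc, add_assoc]; rfl
  · right
    have h0' : σ (0 + 1) = σ 0 - 1 := eq_sub_of_add_eq h0.symm
    have h1 := (hstep 0).2 h0'
    have h2 := (hstep (0 + 1)).2 h1
    have h3 := (hstep (0 + 1 + 1)).2 h2
    have h4 := (hstep (0 + 1 + 1 + 1)).2 h3
    intro i
    fin_cases i
    · simp
    · exact h0'
    · show σ (0 + 1 + 1) = σ 0 - 2
      rw [h1, h0', sub_sub]; rfl
    · show σ (0 + 1 + 1 + 1) = σ 0 - 3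
      rw [h2, h1, h0', sub_sub, sub_sub]; rfl
    · show σ (0 + 1 + 1 + 1 + 1) = σ 0 - 4
      rw [h3, h2, h1, h0', sub_sub, sub_sub, sub_sub]; rfl
    · show σ (0 + 1 + 1 + 1 + 1 + 1) = σ 0 - 5
      rw [h4, h3, h2, h1, h0', sub_sub, sub_sub, sub_sub, sub_sub]; rfl

lemma hex_rot {F : Type} [AddCommGroup F] (o a b : F) (s : Fin 6) : ∃ A B : F,
    ∀ i, hex o a b (s + i) = hex o A B i := by
  refine ⟨hex o a b s - o, hex o a b (s + 1) - o, ?_⟩
  intro i
  fin_cases s <;> fin_cases i <;> simp [hex] <;> abel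

lemma hex_refl {F : Type} [AddCommGroup F] (o a b : F) (s : Fin 6) : ∃ A B : F,
    ∀ i, hex o a b (s - i) = hex o A B i := by
  refine ⟨hex o a b s - o, hex o a b (s - 1) - o, ?_⟩
  intro i
  fin_cases s <;> fin_cases i <;> simp [hex] <;> abel

end Pool.Agent.TH374.Shadow
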